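import Pool.Agent.V5helper81.CS.Avg

/-!
# Job D1 (Step 1)
-/

set_option autoImplicit false
set_option linter.unusedSectionVars false

open scoped RealInnerProductSpace
open Finset

namespace Pool.Agent.V5helper81.CS

open Pool.Agent.V5helper68.CS

section one

variable {I V : Type} [Fintype I] [DecidableEq I] [NormedAddCommGroup V] [InnerProductSpace ℝ V]

/-- the vector `z ⊗ e₀` -/
noncomputable def te (P : Prof I V) (z : I → ℝ) : EE I V := WithLp.toLp 2 fun p => z p • P.e₀

theorem inner_te (P : Prof I V) (z : I → ℝ) (y : EE I V) :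
    ⟪y, te P z⟫ = ∑ p, z p * ⟪P.e₀, y p⟫ := by
  rw [PiLp.inner_apply]
  refine Finset.sum_congr rfl fun p _ => ?_
  simp only [te, real_inner_smul_right]
  rw [real_inner_comm]

theorem norm_te (P : Prof I V) (z : I → ℝ) : ‖te P z‖ = Real.sqrt (∑ p, z p ^ 2) := by
  rw [PiLp.norm_eq_of_L2]
  congr 1
  refine Finset.sum_congr rfl fun p _ => ?_
  simp only [te, norm_smul, P.ne0, mul_one, Real.norm_eq_abs, sq_abs]

theorem Os_te (P : Prof I V) (z : I → ℝ) (hz : ∀ p, z p = 0 ∨ |z p| = 1) (x : HH I) :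
    ⟪x, P.Os (te P z)⟫ = P.η * Real.log ‖te P z‖ * ∑ p, z p * x p := by
  rw [PiLp.inner_apply, Finset.mul_sum]
  refine Finset.sum_congr rfl fun p _ => ?_
  rw [Os_flat P (te P z) p]
  · simp only [te, real_inner_smul_right, RCLike.inner_apply, conj_trivial]
    rw [real_inner_comm, P.inn]
    ring
  · rcases hz p with h | h
    · left; simp [te, h]
    · right; simp only [te, norm_smul, P.ne0, mul_one, Real.norm_eq_abs, h]

/-- the `q`-th column of `D'` -/
noncomputable def dv (P : Prof I V) (T : XS P →ₗ[ℝ] XS P) (q : I) (z : I → ℝ) : ℝ :=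
  ∑ p, z p * Dm P T p q

/-- the `e₀`-part of the first component -/
noncomputable def yv (P : Prof I V) (T : XS P →ₗ[ℝ] XS P) (q : I) (z : I → ℝ) : ℝ :=
  ∑ p, z p * ⟪P.e₀, fs P (T (zz P (eb q))) p⟫

theorem test_te (P : Prof I V) (T : XS P →ₗ[ℝ] XS P) {K : ℝ} (hK : 0 ≤ K) (hT : Bd T K)
    (z : I → ℝ) (hz : ∀ p, z p = 0 ∨ |z p| = 1) :
    ∑ q, |yv P T q z - P.η * Real.log (Real.sqrt (∑ p, z p ^ 2)) * dv P T q z| ≤
      K * Real.sqrt (∑ p, z p ^ 2) * Real.sqrt (Fintype.card I) := by
  have h := sum_abs_tf_le P T hK hT (te P z)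
  rw [norm_te] at h
  refine (le_of_eq ?_).trans h
  refine Finset.sum_congr rfl fun q _ => ?_
  rw [tf, Os_te P z hz, inner_te, norm_te]
  rfl

end one

theorem tn_cases (n : ℕ) (s : Fin (n + 1) × Bool) : tn n s = 0 ∨ |tn n s| = 1 := by
  unfold tn
  split_ifs with h
  · right; exact abs_sg _
  · left; rfl

/-- Real inequality used in the averaging: `log ϱ · a ≤ log (k/N) a + u a` in the form needed. -/
theorem log_aux {k N r : ℝ} (hk : 0 < k) (hN : 0 < N) (hr : 0 < r) :
    Real.log r * Real.sqrt N ≤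
      (Real.log k - Real.log N) * Real.sqrt N + Real.sqrt (k / r) * (N * r / k) := by
  have hu : 0 < N * r / k := by positivity
  set s : ℝ := Real.sqrt (N * r / k) with hs
  have hs0 : 0 < s := Real.sqrt_pos.mpr hu
  have hs2 : s ^ 2 = N * r / k := Real.sq_sqrt hu.le
  have h1 : Real.log r - (Real.log k - Real.log N) = Real.log (N * r / k) := by
    rw [Real.log_div (by positivity) (by positivity), Real.log_mul (by positivity) (by positivity)]
    ring
  have h2 : Real.log (N * r / k) ≤ s := by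
    rw [← hs2, Real.log_pow]
    have h3 := Real.add_one_le_exp (s / 2 - 1)
    have h5 : Real.log s ≤ s / 2 := by
      -- `log s = 2 log √s ≤ ...` : use `log x ≤ x - 1` at `s / e`
      have h6 : Real.log (s / Real.exp 1) ≤ s / Real.exp 1 - 1 :=
        Real.log_le_sub_one_of_pos (by positivity)
      rw [Real.log_div hs0.ne' (Real.exp_pos 1).ne', Real.log_exp] at h6
      have h7 : s / Real.exp 1 ≤ s / 2 := by
        apply div_le_div_of_nonneg_left hs0.le (by norm_num)
        have := Real.add_one_le_exp (1 : ℝ)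
        linarith
      linarith
    push_cast
    linarith
  have h3 : Real.sqrt (k / r) * s = Real.sqrt N := by
    rw [hs, ← Real.sqrt_mul (by positivity)]
    congr 1
    field_simp
  have h4 : (Real.log r - (Real.log k - Real.log N)) * Real.sqrt N ≤ s * Real.sqrt N := by
    rw [h1]
    exact mul_le_mul_of_nonneg_right h2 (Real.sqrt_nonneg _)
  have h5 : s * Real.sqrt N = Real.sqrt (k / r) * (N * r / k) := by
    rw [← h3, ← hs2]; ring
  rw [← h5]
  linarith

section main

variable {I V : Type} [Fintype I] [DecidableEq I] [NormedAddCommGroup V] [InnerProductSpace ℝ V]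

/-- Summing over `q` for a fixed ternary vector. -/
theorem fixed_z (P : Prof I V) (T : XS P →ₗ[ℝ] XS P) {K : ℝ} (hK : 0 ≤ K) (hT : Bd T K)
    (z : I → ℝ) (hz : ∀ p, z p = 0 ∨ |z p| = 1) (r : ℝ) (hr : 1 ≤ r) [Nonempty I] :
    (P.η / 2 * Real.log r) * ∑ q, |dv P T q z| ≤
      ∑ q, |yv P T q z - lam P * dv P T q z| +
      K * Real.sqrt (Fintype.card I) * Real.sqrt (∑ p, z p ^ 2) +
      P.η / 2 * (K * Real.sqrt (Fintype.card I) *
        (Real.sqrt ((Fintype.card I : ℝ) / r) * ((∑ p, z p ^ 2) * r / (Fintype.card I : ℝ)))) := by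
  have hk : 0 < (Fintype.card I : ℝ) := by exact_mod_cast Fintype.card_pos
  generalize hkk : (Fintype.card I : ℝ) = k at *
  have hη := P.η0
  have hN0 : 0 ≤ ∑ p, z p ^ 2 := Finset.sum_nonneg fun p _ => sq_nonneg _
  have hS0 : 0 ≤ ∑ q, |dv P T q z| := Finset.sum_nonneg fun q _ => abs_nonneg _
  have hY0 : 0 ≤ ∑ q, |yv P T q z - lam P * dv P T q z| :=
    Finset.sum_nonneg fun q _ => abs_nonneg _
  rcases hN0.eq_or_lt with h0 | hN
  · -- `z = 0`
    have hz0 : ∀ p, z p = 0 := by
      intro p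
      have := (Finset.sum_eq_zero_iff_of_nonneg (fun p _ => sq_nonneg (z p))).mp h0.symm p
        (Finset.mem_univ p)
      exact pow_eq_zero_iff (two_ne_zero) |>.mp this
    have : ∀ q, dv P T q z = 0 := fun q => by
      unfold dv
      exact Finset.sum_eq_zero fun p _ => by rw [hz0, zero_mul]
    simp only [this, abs_zero, Finset.sum_const_zero, mul_zero, sub_zero, ← h0, Real.sqrt_zero,
      zero_mul, zero_div]
    simpa using Finset.sum_nonneg fun q (_ : q ∈ (univ : Finset I)) => abs_nonneg (yv P T q z)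
  generalize hNN : ∑ p, z p ^ 2 = N at *
  -- |d| ≤ K √k √N
  have hd : ∑ q, |dv P T q z| ≤ K * Real.sqrt k * Real.sqrt N := by
    set w : HH I := WithLp.toLp 2 z with hw
    have hwn : ‖w‖ = Real.sqrt N := by
      rw [EuclideanSpace.norm_eq, ← hNN]
      congr 1
      exact Finset.sum_congr rfl fun p _ => by rw [Real.norm_eq_abs, sq_abs]
    set f : XS P →ₗ[ℝ] ℝ := ((innerₛₗ ℝ w).comp (sn P)).comp T with hf
    have h1 : ∀ x, f x = ⟪w, sn P (T x)⟫ := fun x => rfl
    have h2 := sum_abs_le P f (K * ‖w‖) (by positivity) (fun x => by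
      rw [h1]
      calc |⟪w, sn P (T x)⟫| ≤ ‖w‖ * ‖sn P (T x)‖ := abs_real_inner_le_norm _ _
        _ ≤ ‖w‖ * (K * ‖x‖) :=
            mul_le_mul_of_nonneg_left ((sn_le P _).trans (hT x)) (norm_nonneg _)
        _ = K * ‖w‖ * ‖x‖ := by ring)
    have h3 : ∀ q, f (zz P (eb q)) = dv P T q z := by
      intro q
      rw [h1, PiLp.inner_apply]
      refine Finset.sum_congr rfl fun p _ => ?_
      simp only [hw, RCLike.inner_apply, conj_trivial]
      rw [mul_comm]; rfl
    simp only [h3] at h2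
    rw [hkk, hwn] at h2
    linarith [mul_right_comm K (Real.sqrt N) (Real.sqrt k)]
  have ht := test_te P T hK hT z hz
  rw [hNN, hkk, Real.log_sqrt hN.le] at ht
  -- the difference of the two tests
  have hdiff : ∀ q, (P.η / 2 * (Real.log k - Real.log N)) * |dv P T q z| ≤
      |yv P T q z - lam P * dv P T q z| + |yv P T q z - P.η * (Real.log N / 2) * dv P T q z| := by
    intro q
    have h1 : (P.η / 2 * (Real.log k - Real.log N)) * dv P T q z =
        (yv P T q z - P.η * (Real.log N / 2) * dv P T q z) -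
          (yv P T q z - lam P * dv P T q z) := by
      have : lam P = P.η * (Real.log k / 2) := by rw [lam, hkk]
      rw [this]; ring
    calc (P.η / 2 * (Real.log k - Real.log N)) * |dv P T q z|
        ≤ |P.η / 2 * (Real.log k - Real.log N)| * |dv P T q z| :=
          mul_le_mul_of_nonneg_right (le_abs_self _) (abs_nonneg _)
      _ = |(P.η / 2 * (Real.log k - Real.log N)) * dv P T q z| := (abs_mul _ _).symm
      _ ≤ _ := by
          rw [h1]
          refine (abs_sub _ _).trans (le_of_eq (add_comm _ _))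
  have hsum := Finset.sum_le_sum fun q (_ : q ∈ (univ : Finset I)) => hdiff q
  rw [← Finset.mul_sum, Finset.sum_add_distrib] at hsum
  -- replace `log k - log N` by `log r`
  have hlog := log_aux hk hN (by linarith : 0 < r)
  -- `(log r - (log k - log N)) ∑|d| ≤ (...)⁺ K √k √N`
  have hrep : (Real.log r - (Real.log k - Real.log N)) * ∑ q, |dv P T q z| ≤
      K * Real.sqrt k * (Real.sqrt (k / r) * (N * r / k)) := by
    rcases le_or_gt (Real.log r - (Real.log k - Real.log N)) 0 with h | h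
    · refine (mul_nonpos_of_nonpos_of_nonneg h hS0).trans ?_
      positivity
    · calc (Real.log r - (Real.log k - Real.log N)) * ∑ q, |dv P T q z|
          ≤ (Real.log r - (Real.log k - Real.log N)) * (K * Real.sqrt k * Real.sqrt N) :=
            mul_le_mul_of_nonneg_left hd h.le
        _ = K * Real.sqrt k * ((Real.log r - (Real.log k - Real.log N)) * Real.sqrt N) := by ring
        _ ≤ _ := by
            apply mul_le_mul_of_nonneg_left _ (by positivity)
            linarith
  have e1 : (P.η / 2 * Real.log r) * ∑ q, |dv P T q z| =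
      P.η / 2 * (Real.log k - Real.log N) * ∑ q, |dv P T q z| +
      P.η / 2 * ((Real.log r - (Real.log k - Real.log N)) * ∑ q, |dv P T q z|) := by ring
  rw [e1]
  have h6 : P.η / 2 * ((Real.log r - (Real.log k - Real.log N)) * ∑ q, |dv P T q z|) ≤
      P.η / 2 * (K * Real.sqrt k * (Real.sqrt (k / r) * (N * r / k))) :=
    mul_le_mul_of_nonneg_left hrep (by positivity)
  have h7 : K * Real.sqrt N * Real.sqrt k = K * Real.sqrt k * Real.sqrt N := by ring
  rw [h7] at ht
  linarith

/-- Averages over ternary vectors. -/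
theorem avg_z (A2 : JobA2) (A4 : JobA4) (P : Prof I V) (T : XS P →ₗ[ℝ] XS P) {K : ℝ} (hK : 0 ≤ K)
    (hT : Bd T K) (n : ℕ) [Nonempty I] :
    (P.η / 2 * Real.log (n + 1)) *
      ∑ q, av (fun ω : I → Fin (n + 1) × Bool => |dv P T q fun p => tn n (ω p)|) ≤
      (3 + P.η / 2) * K * Fintype.card I / Real.sqrt (n + 1) := by
  have hk : 0 < (Fintype.card I : ℝ) := by exact_mod_cast Fintype.card_pos
  have hη := P.η0
  have hn : (0 : ℝ) < n + 1 := by positivity
  -- all signs
  have hA : ∑ q, Real.sqrt (∑ p, (⟪P.e₀, fs P (T (zz P (eb q))) p⟫ - lam P * Dm P T p q) ^ 2) ≤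
      2 * K * Fintype.card I := by
    have h1 : ∀ ε : I → Bool, ∑ q, |∑ p ∈ (univ : Finset I),
        sg (ε p) * (⟪P.e₀, fs P (T (zz P (eb q))) p⟫ - lam P * Dm P T p q)| ≤
        K * Fintype.card I := by
      intro ε
      have h2 := test_te P T hK hT (fun p => sg (ε p)) fun p => Or.inr (abs_sg _)
      have h3 : ∑ p : I, sg (ε p) ^ 2 = (Fintype.card I : ℝ) := by
        simp only [pow_two, sg_sq]
        simp
      rw [h3, Real.log_sqrt hk.le, mul_assoc K, Real.mul_self_sqrt hk.le] at h2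
      refine (le_of_eq ?_).trans h2
      refine Finset.sum_congr rfl fun q _ => ?_
      congr 1
      rw [yv, dv, Finset.mul_sum, ← Finset.sum_sub_distrib]
      refine Finset.sum_congr rfl fun p _ => ?_
      rw [lam]; ring
    calc ∑ q, Real.sqrt (∑ p, (⟪P.e₀, fs P (T (zz P (eb q))) p⟫ - lam P * Dm P T p q) ^ 2)
        ≤ ∑ q, 2 * av (fun ε : I → Bool => |∑ p ∈ (univ : Finset I),
          sg (ε p) * (⟪P.e₀, fs P (T (zz P (eb q))) p⟫ - lam P * Dm P T p q)|) :=
          Finset.sum_le_sum fun q _ => A2 I univ fun p =>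
            (⟪P.e₀, fs P (T (zz P (eb q))) p⟫ - lam P * Dm P T p q)
      _ = 2 * av (fun ε : I → Bool => ∑ q, |∑ p ∈ (univ : Finset I),
          sg (ε p) * (⟪P.e₀, fs P (T (zz P (eb q))) p⟫ - lam P * Dm P T p q)|) := by
          rw [av_sum, Finset.mul_sum]
      _ ≤ 2 * (K * Fintype.card I) := mul_le_mul_of_nonneg_left (av_le h1) (by norm_num)
      _ = _ := by ring
  obtain ⟨A4a, A4b, A4c⟩ := A4 I n
  have hB : ∑ q, av (fun ω : I → Fin (n + 1) × Bool =>
      |yv P T q (fun p => tn n (ω p)) - lam P * dv P T q (fun p => tn n (ω p))|) ≤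
      2 * K * Fintype.card I / Real.sqrt (n + 1) := by
    calc _ = ∑ q, av (fun ω : I → Fin (n + 1) × Bool => |∑ p, tn n (ω p) *
          (⟪P.e₀, fs P (T (zz P (eb q))) p⟫ - lam P * Dm P T p q)|) := by
          refine Finset.sum_congr rfl fun q _ => ?_
          congr 1
          funext ω
          congr 1
          rw [yv, dv, Finset.mul_sum, ← Finset.sum_sub_distrib]
          exact Finset.sum_congr rfl fun p _ => by ring
      _ ≤ ∑ q, Real.sqrt (∑ p, (⟪P.e₀, fs P (T (zz P (eb q))) p⟫ - lam P * Dm P T p q) ^ 2) /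
          Real.sqrt (n + 1) := Finset.sum_le_sum fun q _ => A4a fun p =>
            (⟪P.e₀, fs P (T (zz P (eb q))) p⟫ - lam P * Dm P T p q)
      _ = (∑ q, Real.sqrt (∑ p, (⟪P.e₀, fs P (T (zz P (eb q))) p⟫ - lam P * Dm P T p q) ^ 2)) /
          Real.sqrt (n + 1) := by rw [Finset.sum_div]
      _ ≤ _ := div_le_div_of_nonneg_right hA (Real.sqrt_nonneg _)
  have hfix : ∀ ω : I → Fin (n + 1) × Bool, _ := fun ω =>
    fixed_z P T hK hT (fun p => tn n (ω p)) (fun p => tn_cases n _) (n + 1)
      (by have : (0:ℝ) ≤ n := Nat.cast_nonneg n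
          linarith)
  have havg := av_mono hfix
  simp only [av_add, av_mul, av_sum] at havg
  have e2 : av (fun ω : I → Fin (n + 1) × Bool =>
      Real.sqrt ((Fintype.card I : ℝ) / (n + 1)) * ((∑ p, tn n (ω p) ^ 2) * (n + 1) /
        (Fintype.card I : ℝ))) = Real.sqrt ((Fintype.card I : ℝ) / (n + 1)) := by
    have : ∀ ω : I → Fin (n + 1) × Bool, (∑ p, tn n (ω p) ^ 2) * (n + 1) / (Fintype.card I : ℝ) =
        ((n + 1) / (Fintype.card I : ℝ)) * ∑ p, tn n (ω p) ^ 2 := fun ω => by ring
    simp only [this, av_mul, A4b]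
    field_simp
  have e3 : Real.sqrt (Fintype.card I : ℝ) * Real.sqrt ((Fintype.card I : ℝ) / (n + 1)) =
      Fintype.card I / Real.sqrt (n + 1) := by
    rw [Real.sqrt_div hk.le, ← mul_div_assoc, Real.mul_self_sqrt hk.le]
  rw [av_mul] at e2
  rw [e2] at havg
  have h8 : K * Real.sqrt (Fintype.card I) *
      av (fun ω : I → Fin (n + 1) × Bool => Real.sqrt (∑ p, tn n (ω p) ^ 2)) ≤
      K * (Fintype.card I / Real.sqrt (n + 1)) := by
    rw [← e3, mul_assoc]
    exact mul_le_mul_of_nonneg_left (mul_le_mul_of_nonneg_left A4c (Real.sqrt_nonneg _)) hK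
  have h9 : P.η / 2 * (K * Real.sqrt (Fintype.card I) *
      Real.sqrt ((Fintype.card I : ℝ) / (n + 1))) =
      P.η / 2 * (K * (Fintype.card I / Real.sqrt (n + 1))) := by
    rw [← e3, mul_assoc K]
  rw [h9] at havg
  have h10 : (3 + P.η / 2) * K * Fintype.card I / Real.sqrt (n + 1) =
      2 * K * Fintype.card I / Real.sqrt (n + 1) + K * (Fintype.card I / Real.sqrt (n + 1)) +
      P.η / 2 * (K * (Fintype.card I / Real.sqrt (n + 1))) := by ring
  rw [h10]
  linarith

end main

/-- D1 from A2, A3, A4. -/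
theorem jobD1 (A2 : JobA2) (A3 : JobA3) (A4 : JobA4) : JobD1 := by
  intro K η δ hK hη hδ
  set C : ℝ := Real.sqrt 3 * (3 + η / 2) * K / (η / 2 * (δ / 2)) with hC
  have hC0 : 0 < C := by positivity
  obtain ⟨n, hn⟩ := exists_nat_ge (Real.exp C)
  have hlog : C ≤ Real.log (n + 1) := by
    rw [Real.le_log_iff_exp_le (by positivity)]
    linarith
  have hlog0 : 0 < Real.log (n + 1 : ℝ) := hC0.trans_le hlog
  have hn0 : (0 : ℝ) < n + 1 := by positivity
  refine ⟨δ / 2 / Real.sqrt (n + 1), by positivity, ?_⟩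
  intro I V _ _ _ _ P T hP hT
  rcases isEmpty_or_nonempty I with hI | hI
  · simp
  have hk : 0 < (Fintype.card I : ℝ) := by exact_mod_cast Fintype.card_pos
  have h1 : ∀ q, Real.sqrt (∑ p with |Dm P T p q| ≤ δ / 2 / Real.sqrt (n + 1), Dm P T p q ^ 2) ≤
      δ / 2 + Real.sqrt (3 * (n + 1)) *
        av (fun ω : I → Fin (n + 1) × Bool => |dv P T q fun p => tn n (ω p)|) := by
    intro q
    have h := A3 I n (δ / 2) (by positivity) fun p => Dm P T p q
    rw [div_le_iff₀ (by positivity)] at h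
    have h2 : av (fun ω : I → Fin (n + 1) × Bool => |∑ p, tn n (ω p) * Dm P T p q|) =
      av (fun ω : I → Fin (n + 1) × Bool => |dv P T q fun p => tn n (ω p)|) := rfl
    rw [h2] at h
    linarith
  have h2 := avg_z A2 A4 P T hK.le hT n
  rw [hP] at h2
  generalize hSS : ∑ q, av (fun ω : I → Fin (n + 1) × Bool => |dv P T q fun p => tn n (ω p)|) = S
    at h2
  have h3 := Finset.sum_le_sum fun q (_ : q ∈ (univ : Finset I)) => h1 q
  rw [Finset.sum_add_distrib, ← Finset.mul_sum, hSS] at h3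
  simp only [Finset.sum_const, Finset.card_univ, nsmul_eq_mul] at h3
  refine h3.trans ?_
  have h4 : S ≤ (3 + η / 2) * K * Fintype.card I / Real.sqrt (n + 1) / (η / 2 * C) := by
    rw [le_div_iff₀ (by positivity)]
    have hS0 : 0 ≤ S := hSS ▸ Finset.sum_nonneg fun q _ => av_nonneg fun ω => abs_nonneg _
    have : η / 2 * C * S ≤ η / 2 * Real.log (n + 1) * S := by gcongr
    linarith
  have h5 : Real.sqrt (3 * (n + 1)) * S ≤ δ / 2 * Fintype.card I := by
    refine (mul_le_mul_of_nonneg_left h4 (Real.sqrt_nonneg _)).trans (le_of_eq ?_)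
    have h3' : 0 < Real.sqrt 3 := by positivity
    have hn' : 0 < Real.sqrt (n + 1 : ℝ) := by positivity
    rw [hC, Real.sqrt_mul (by norm_num)]
    field_simp
  linarith

end Pool.Agent.V5helper81.CS
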