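import Pool.Agent.V5helper81.CS.Avg

/-!
# Jobs D2 and D3
-/

set_option autoImplicit false
set_option linter.unusedSectionVars false

open scoped RealInnerProductSpace
open Finset

namespace Pool.Agent.V5helper81.CS

open Pool.Agent.V5helper68.CS

/-- D2 from the Khinchin inequality. -/
theorem jobD2 (A2 : JobA2) : JobD2 := by
  intro I V _ _ _ _ P T K hK hT P₁
  have key : ∀ ε : I → Bool, ∑ q, |∑ p ∈ P₁, sg (ε p) * Dm P T p q| ≤
      K * Real.sqrt ((Fintype.card I : ℝ) * P₁.card) := by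
    intro ε
    set f : XS P →ₗ[ℝ] ℝ := ((innerₛₗ ℝ (sgv P₁ ε)).comp (sn P)).comp T with hf
    have h1 : ∀ z, f z = ⟪sn P (T z), sgv P₁ ε⟫ := by
      intro z
      show ⟪sgv P₁ ε, sn P (T z)⟫ = _
      exact real_inner_comm _ _
    have h2 := sum_abs_le P f (K * ‖sgv P₁ ε‖) (by positivity) (fun z => by
      rw [h1]
      calc |⟪sn P (T z), sgv P₁ ε⟫| ≤ ‖sn P (T z)‖ * ‖sgv P₁ ε‖ := abs_real_inner_le_norm _ _
        _ ≤ (K * ‖z‖) * ‖sgv P₁ ε‖ :=
            mul_le_mul_of_nonneg_right ((sn_le P _).trans (hT z)) (norm_nonneg _)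
        _ = K * ‖sgv P₁ ε‖ * ‖z‖ := by ring)
    have h3 : ∀ q, f (zz P (eb q)) = ∑ p ∈ P₁, sg (ε p) * Dm P T p q := by
      intro q
      rw [h1, inner_sgv]
      rfl
    simp only [h3] at h2
    refine h2.trans (le_of_eq ?_)
    rw [norm_sgv, mul_assoc, ← Real.sqrt_mul (by positivity), mul_comm (P₁.card : ℝ)]
  calc ∑ q, Real.sqrt (∑ p ∈ P₁, Dm P T p q ^ 2)
      ≤ ∑ q, 2 * av (fun ε : I → Bool => |∑ p ∈ P₁, sg (ε p) * Dm P T p q|) :=
        Finset.sum_le_sum fun q _ => A2 I P₁ fun p => Dm P T p q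
    _ = 2 * av (fun ε : I → Bool => ∑ q, |∑ p ∈ P₁, sg (ε p) * Dm P T p q|) := by
        rw [av_sum, Finset.mul_sum]
    _ ≤ 2 * (K * Real.sqrt ((Fintype.card I : ℝ) * P₁.card)) :=
        mul_le_mul_of_nonneg_left (av_le key) (by norm_num)
    _ = 2 * K * Real.sqrt ((Fintype.card I : ℝ) * P₁.card) := by ring

/-- D3 from the averages of bilinear forms. -/
theorem jobD3 (A1 : JobA1) : JobD3 := by
  intro I V _ _ _ _ P T K hK hT
  have key : ∀ ε : I → Bool, ∑ p, (∑ q, sg (ε q) * Dm P T p q) ^ 2 ≤ K ^ 2 * Fintype.card I := by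
    intro ε
    have h1 : ∀ p, sn P (T (zz P (sgv univ ε))) p = ∑ q, sg (ε q) * Dm P T p q := by
      intro p
      rw [sgv_eq_sum]
      simp only [map_sum, map_smul, WithLp.ofLp_sum, Finset.sum_apply, WithLp.ofLp_smul,
        Pi.smul_apply, smul_eq_mul]
      rfl
    have h2 : ‖sn P (T (zz P (sgv univ ε)))‖ ≤ K * Real.sqrt (Fintype.card I) :=
      (sn_le P _).trans ((hT _).trans (mul_le_mul_of_nonneg_left
        (norm_zz P _ fun q => abs_sgv_le _ _ q) hK.le))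
    have h3 : ∑ p, (∑ q, sg (ε q) * Dm P T p q) ^ 2 = ‖sn P (T (zz P (sgv univ ε)))‖ ^ 2 := by
      rw [EuclideanSpace.real_norm_sq_eq]
      exact Finset.sum_congr rfl fun p _ => by rw [h1]
    rw [h3]
    calc ‖sn P (T (zz P (sgv univ ε)))‖ ^ 2 ≤ (K * Real.sqrt (Fintype.card I)) ^ 2 :=
          pow_le_pow_left₀ (norm_nonneg _) h2 2
      _ = K ^ 2 * Fintype.card I := by
          rw [mul_pow, Real.sq_sqrt (by positivity)]
  have h4 : ∀ p, av (fun ε : I → Bool => (∑ q, sg (ε q) * Dm P T p q) ^ 2) =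
      ∑ q, Dm P T p q ^ 2 := by
    intro p
    have := A1 I univ fun q q' => Dm P T p q * Dm P T p q'
    simp only [← pow_two] at this
    rw [← this]
    congr 1
    funext ε
    rw [pow_two, Finset.sum_mul_sum]
    refine Finset.sum_congr rfl fun q _ => Finset.sum_congr rfl fun q' _ => ?_
    ring
  rw [Finset.sum_comm]
  calc ∑ p, ∑ q, Dm P T p q ^ 2
      = ∑ p, av (fun ε : I → Bool => (∑ q, sg (ε q) * Dm P T p q) ^ 2) :=
        Finset.sum_congr rfl fun p _ => (h4 p).symm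
    _ = av (fun ε : I → Bool => ∑ p, (∑ q, sg (ε q) * Dm P T p q) ^ 2) := by rw [av_sum]
    _ ≤ K ^ 2 * Fintype.card I := av_le key

end Pool.Agent.V5helper81.CS
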