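import Pool.Agent.V5helper81.CS.Avg

/-!
# Jobs H1, H2 and H3
-/

set_option autoImplicit false
set_option linter.unusedSectionVars false

open scoped RealInnerProductSpace
open Finset

namespace Pool.Agent.V5helper81.CS

open Pool.Agent.V5helper68.CS

/-- Parallelogram identity for sign averages. -/
theorem av_norm_sq (A1 : JobA1) {J H : Type} [Fintype J] [DecidableEq J] [NormedAddCommGroup H]
    [InnerProductSpace ℝ H] (Q : Finset J) (v : J → H) :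
    av (fun ε : J → Bool => ‖∑ q ∈ Q, sg (ε q) • v q‖ ^ 2) = ∑ q ∈ Q, ‖v q‖ ^ 2 := by
  have := A1 J Q fun q q' => ⟪v q, v q'⟫
  simp only [real_inner_self_eq_norm_sq] at this
  rw [← this]
  congr 1
  funext ε
  rw [← real_inner_self_eq_norm_sq, sum_inner]
  refine Finset.sum_congr rfl fun q _ => ?_
  rw [inner_sum]
  refine Finset.sum_congr rfl fun q' _ => ?_
  rw [real_inner_smul_left, real_inner_smul_right]
  ring

theorem le_of_sq_le_mul {d B : ℝ} (hd : 0 ≤ d) (hB : 0 ≤ B) (h : d ^ 2 ≤ B * d) : d ≤ B := by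
  rcases hd.eq_or_lt with h' | h'
  · rw [← h']; exact hB
  · nlinarith

theorem sub_le_of_abs {a b p q : ℝ} (ha : |a| ≤ p) (hb : |b| ≤ q) : a - b ≤ p + q := by
  have := abs_le.mp ha
  have := abs_le.mp hb
  linarith

theorem le_of_sq_sq {a b : ℝ} (hb : 0 ≤ b) (h : a ^ 2 ≤ b ^ 2) : a ≤ b :=
  le_of_sq_le_sq h hb

theorem two_sq_aux {u z c S : ℝ} (hu : 0 ≤ u) (h : u ≤ 3 * z + c) (hc : c ^ 2 ≤ S) :
    u ^ 2 ≤ 18 * z ^ 2 + 2 * S := by
  calc u ^ 2 ≤ (3 * z + c) ^ 2 := pow_le_pow_left₀ hu h 2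
    _ ≤ 18 * z ^ 2 + 2 * S := by nlinarith [sq_nonneg (3 * z - c)]

/-- `Ω` is nearly additive. -/
theorem Om_sum (J : Type) [Fintype J] [DecidableEq J] {I V : Type} [Fintype I]
    [NormedAddCommGroup V] [InnerProductSpace ℝ V] (P : Prof I V) (Q : Finset J) (x : J → HH I)
    (ε : J → Bool) :
    ‖P.Om (∑ q ∈ Q, sg (ε q) • x q) - ∑ q ∈ Q, sg (ε q) • P.Om (x q)‖ ≤
      P.c * (‖∑ q ∈ Q, sg (ε q) • x q‖ + ∑ q ∈ Q, ‖x q‖) := by
  generalize hX : ∑ q ∈ Q, sg (ε q) • x q = X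
  generalize hD : P.Om X - ∑ q ∈ Q, sg (ε q) • P.Om (x q) = D
  have h1 : ⟪D, D⟫ = (⟪P.Om X, D⟫ - ⟪X, P.Os D⟫) -
      ∑ q ∈ Q, sg (ε q) * (⟪P.Om (x q), D⟫ - ⟪x q, P.Os D⟫) := by
    nth_rewrite 1 [← hD]
    rw [inner_sub_left, sum_inner]
    have : ⟪X, P.Os D⟫ = ∑ q ∈ Q, sg (ε q) * ⟪x q, P.Os D⟫ := by
      rw [← hX, sum_inner]
      exact Finset.sum_congr rfl fun q _ => real_inner_smul_left _ _ _
    rw [this]
    simp only [real_inner_smul_left, mul_sub, Finset.sum_sub_distrib]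
    ring
  have h2 := sS P X D
  have h3 : |∑ q ∈ Q, sg (ε q) * (⟪P.Om (x q), D⟫ - ⟪x q, P.Os D⟫)| ≤
      ∑ q ∈ Q, P.c * ‖x q‖ * ‖D‖ := by
    refine (Finset.abs_sum_le_sum_abs _ _).trans (Finset.sum_le_sum fun q _ => ?_)
    rw [abs_mul, abs_sg, one_mul]
    exact sS P _ _
  have h4 : ‖D‖ ^ 2 ≤ P.c * (‖X‖ + ∑ q ∈ Q, ‖x q‖) * ‖D‖ := by
    rw [← real_inner_self_eq_norm_sq, h1]
    refine (sub_le_of_abs h2 h3).trans (le_of_eq ?_)
    rw [← Finset.sum_mul, ← Finset.mul_sum]; ring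
  refine le_of_sq_le_mul (norm_nonneg _) ?_ h4
  have h5 : 0 ≤ ∑ q ∈ Q, ‖x q‖ := Finset.sum_nonneg fun q _ => norm_nonneg _
  exact mul_nonneg P.c0 (add_nonneg (norm_nonneg _) h5)

/-- H2 -/
theorem jobH2 (A1 : JobA1) : JobH2 := by
  intro J _ _ I V _ _ _ P Q W hc
  obtain ⟨S2, hS2⟩ : ∃ S2 : ℝ, S2 = av (fun ε : J → Bool => ‖∑ q ∈ Q, sg (ε q) • W q‖ ^ 2) :=
    ⟨_, rfl⟩
  rw [← hS2]
  have hx : ∑ q ∈ Q, ‖sn P (W q)‖ ^ 2 ≤ S2 := by
    rw [← av_norm_sq A1 Q fun q => sn P (W q), hS2]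
    refine av_mono fun ε => ?_
    have h1 : ∑ q ∈ Q, sg (ε q) • sn P (W q) = sn P (∑ q ∈ Q, sg (ε q) • W q) := by
      simp only [map_sum, map_smul]
    rw [h1]
    exact pow_le_pow_left₀ (norm_nonneg _) (sn_le P _) 2
  have hS0 : 0 ≤ S2 := hS2 ▸ av_nonneg fun ε => sq_nonneg _
  have hx1 : (∑ q ∈ Q, ‖sn P (W q)‖) ^ 2 ≤ Q.card * S2 := by
    have := sq_sum_le_card_mul_sum_sq (s := Q) (f := fun q => ‖sn P (W q)‖)
    refine this.trans ?_
    exact mul_le_mul_of_nonneg_left hx (by positivity)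
  set u : J → EE I V := fun q => fs P (W q) - P.Om (sn P (W q)) with hu
  have hu1 : ∀ ε : J → Bool, ‖∑ q ∈ Q, sg (ε q) • u q‖ ^ 2 ≤
      18 * ‖∑ q ∈ Q, sg (ε q) • W q‖ ^ 2 + 2 * S2 := by
    intro ε
    generalize hZ : ∑ q ∈ Q, sg (ε q) • W q = Z
    have h1 : ∑ q ∈ Q, sg (ε q) • sn P (W q) = sn P Z := by
      simp only [← hZ, map_sum, map_smul]
    have h2 : ∑ q ∈ Q, sg (ε q) • fs P (W q) = fs P Z := by
      simp only [← hZ, map_sum, map_smul]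
    have h3 : ∑ q ∈ Q, sg (ε q) • u q = (fs P Z - P.Om (sn P Z)) +
        (P.Om (sn P Z) - ∑ q ∈ Q, sg (ε q) • P.Om (sn P (W q))) := by
      simp only [hu, smul_sub, Finset.sum_sub_distrib, h2]
      abel
    have h4 := Om_sum J P Q (fun q => sn P (W q)) ε
    rw [h1] at h4
    have h5 := Om_le2 P Z
    have h6 := sn_le P Z
    have h9 : P.c * ‖sn P Z‖ ≤ ‖Z‖ :=
      (mul_le_of_le_one_left (norm_nonneg _) P.c1).trans h6
    have h7 : ‖∑ q ∈ Q, sg (ε q) • u q‖ ≤ 3 * ‖Z‖ + P.c * ∑ q ∈ Q, ‖sn P (W q)‖ := by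
      rw [h3]
      refine (norm_add_le _ _).trans ?_
      rw [mul_add] at h4
      linarith
    have h8 : (P.c * ∑ q ∈ Q, ‖sn P (W q)‖) ^ 2 ≤ S2 := by
      rw [mul_pow]
      calc P.c ^ 2 * (∑ q ∈ Q, ‖sn P (W q)‖) ^ 2 ≤ P.c ^ 2 * (Q.card * S2) :=
            mul_le_mul_of_nonneg_left hx1 (sq_nonneg _)
        _ = (P.c ^ 2 * Q.card) * S2 := by ring
        _ ≤ 1 * S2 := mul_le_mul_of_nonneg_right hc hS0
        _ = S2 := one_mul _
    exact two_sq_aux (norm_nonneg _) h7 h8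
  have hu2 : ∑ q ∈ Q, ‖u q‖ ^ 2 ≤ 20 * S2 := by
    rw [← av_norm_sq A1 Q u]
    refine (av_mono hu1).trans ?_
    rw [av_add, av_mul, av_const, ← hS2]
    linarith
  have hW : ∀ q ∈ Q, ‖W q‖ ^ 2 ≤ 2 * ‖u q‖ ^ 2 + 2 * ‖sn P (W q)‖ ^ 2 := by
    intro q _
    have h1 := norm_le_Om P (W q)
    have h2 : ‖W q‖ ^ 2 ≤ (‖u q‖ + ‖sn P (W q)‖) ^ 2 := pow_le_pow_left₀ (norm_nonneg _) h1 2
    generalize ‖u q‖ = a at *
    generalize ‖sn P (W q)‖ = b at *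
    nlinarith [sq_nonneg (a - b)]
  have := Finset.sum_le_sum hW
  rw [Finset.sum_add_distrib, ← Finset.mul_sum, ← Finset.mul_sum] at this
  linarith

/-- H3 -/
theorem jobH3 (A1 : JobA1) : JobH3 := by
  intro X _ _ _
  obtain ⟨n, ⟨e⟩⟩ : ∃ n : ℕ, Nonempty (X ≃L[ℝ] EuclideanSpace ℝ (Fin n)) :=
    ⟨Module.finrank ℝ X, ⟨ContinuousLinearEquiv.ofFinrankEq (by simp)⟩⟩
  set a : ℝ := ‖(e : X →L[ℝ] EuclideanSpace ℝ (Fin n))‖ with ha
  set b : ℝ := ‖(e.symm : EuclideanSpace ℝ (Fin n) →L[ℝ] X)‖ with hb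
  have ha0 : 0 ≤ a := norm_nonneg _
  have hb0 : 0 ≤ b := norm_nonneg _
  refine ⟨b * a, by positivity, ?_⟩
  intro J _ _ Q W
  have h1 : ∀ w : X, ‖w‖ ^ 2 ≤ b ^ 2 * ‖e w‖ ^ 2 := by
    intro w
    have : ‖w‖ ≤ b * ‖e w‖ := by
      have := (e.symm : EuclideanSpace ℝ (Fin n) →L[ℝ] X).le_opNorm (e w)
      simpa using this
    rw [← mul_pow]
    exact pow_le_pow_left₀ (norm_nonneg _) this 2
  have h2 : ∀ w : X, ‖e w‖ ^ 2 ≤ a ^ 2 * ‖w‖ ^ 2 := by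
    intro w
    have : ‖e w‖ ≤ a * ‖w‖ := (e : X →L[ℝ] EuclideanSpace ℝ (Fin n)).le_opNorm w
    rw [← mul_pow]
    exact pow_le_pow_left₀ (norm_nonneg _) this 2
  calc ∑ q ∈ Q, ‖W q‖ ^ 2 ≤ ∑ q ∈ Q, b ^ 2 * ‖e (W q)‖ ^ 2 := Finset.sum_le_sum fun q _ => h1 _
    _ = b ^ 2 * av (fun ε : J → Bool => ‖∑ q ∈ Q, sg (ε q) • e (W q)‖ ^ 2) := by
        rw [← Finset.mul_sum, av_norm_sq A1 Q fun q => e (W q)]
    _ ≤ b ^ 2 * av (fun ε : J → Bool => a ^ 2 * ‖∑ q ∈ Q, sg (ε q) • W q‖ ^ 2) := by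
        refine mul_le_mul_of_nonneg_left (av_mono fun ε => ?_) (by positivity)
        have : ∑ q ∈ Q, sg (ε q) • e (W q) = e (∑ q ∈ Q, sg (ε q) • W q) := by
          simp only [map_sum, map_smul]
        rw [this]
        exact h2 _
    _ = (b * a) ^ 2 * av (fun ε : J → Bool => ‖∑ q ∈ Q, sg (ε q) • W q‖ ^ 2) := by
        rw [av_mul]; ring

/-- H1 -/
theorem jobH1 (A1 : JobA1) : JobH1 := by
  intro I V Y _ _ _ _ _ _ P U W K₁ K₂ Γ hK₁ hK₂ hΓ hU hW Q hQ hT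
  set k : ℝ := (Fintype.card I : ℝ) with hk
  have hQk : (Q.card : ℝ) ≤ k := by
    rw [hk]; exact_mod_cast Finset.card_le_univ Q
  have hQ1 : (1 : ℝ) ≤ Q.card := by exact_mod_cast hQ.card_pos
  -- the vector `e_q ⊗ e₀`
  set E : I → EE I V := fun q => WithLp.toLp 2 (fun p => if p = q then P.e₀ else 0) with hE
  have hEin : ∀ q (y : EE I V), ⟪y, E q⟫ = ⟪P.e₀, y q⟫ := by
    intro q y
    rw [PiLp.inner_apply, Finset.sum_eq_single q]
    · simp only [hE, if_true]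
      exact real_inner_comm _ _
    · intro b _ hb
      simp only [hE, if_neg hb, inner_zero_right]
    · intro h; exact absurd (Finset.mem_univ _) h
  set Eε : (I → Bool) → EE I V := fun ε => WithLp.toLp 2
    (fun p => if p ∈ Q then sg (ε p) • P.e₀ else 0) with hEε
  have hEεs : ∀ ε, Eε ε = ∑ q ∈ Q, sg (ε q) • E q := by
    intro ε
    ext p
    simp only [hEε, hE, WithLp.ofLp_sum, Finset.sum_apply, WithLp.ofLp_smul, Pi.smul_apply]
    split_ifs with h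
    · rw [Finset.sum_eq_single p]
      · simp
      · intro b _ hb
        rw [if_neg (Ne.symm hb), smul_zero]
      · intro h'; exact absurd h h'
    · symm
      refine Finset.sum_eq_zero fun q hq => ?_
      rw [if_neg (fun h' : p = q => h (h' ▸ hq)), smul_zero]
  have hEn : ∀ q, ‖E q‖ = 1 := by
    intro q
    have h1 : ‖E q‖ ^ 2 = 1 := by
      rw [← real_inner_self_eq_norm_sq, hEin]
      simp only [hE, if_true, real_inner_self_eq_norm_sq, P.ne0, one_pow]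
    have h2 := norm_nonneg (E q)
    nlinarith
  have hEεn : ∀ ε, ‖Eε ε‖ = Real.sqrt Q.card := by
    intro ε
    rw [PiLp.norm_eq_of_L2]
    congr 1
    have : ∀ q, ‖(Eε ε) q‖ ^ 2 = if q ∈ Q then 1 else 0 := by
      intro q
      simp only [hEε]
      split_ifs with h
      · rw [norm_smul, Real.norm_eq_abs, abs_sg, P.ne0]; norm_num
      · simp
    rw [Finset.sum_congr rfl fun q _ => this q]
    simp
  have hOsE : ∀ q, P.Os (E q) = 0 := by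
    intro q
    ext p
    rw [Os_flat P (E q) p]
    · rw [hEn, Real.log_one, P.zero]; simp
    · by_cases h : p = q
      · right; simp only [hE, if_pos h, P.ne0]
      · left; simp only [hE, if_neg h]
  have hOsEε : ∀ ε, P.Os (Eε ε) = (P.η * (Real.log Q.card / 2)) • sgv Q ε := by
    intro ε
    ext p
    rw [Os_flat P (Eε ε) p]
    · rw [hEεn, Real.log_sqrt (by positivity)]
      simp only [hEε, sgv, WithLp.ofLp_smul, Pi.smul_apply, smul_eq_mul]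
      split_ifs with h
      · rw [real_inner_smul_right, real_inner_comm, P.inn]; ring
      · simp
    · by_cases h : p ∈ Q
      · right; simp only [hEε, if_pos h, norm_smul, Real.norm_eq_abs, abs_sg, P.ne0, mul_one]
      · left; simp only [hEε, if_neg h]
  set v : I → XS P := fun q => W (U (zz P (eb q))) with hv
  set L : ℝ := P.η * (Real.log Q.card / 2) with hL
  have hL0 : 0 ≤ L := by
    have := P.η0
    have := Real.log_nonneg hQ1
    positivity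
  -- the norms of `U z(e_q)`
  have hA : ∀ ε : I → Bool, ‖∑ q ∈ Q, sg (ε q) • U (zz P (eb q))‖ ≤ K₁ * Real.sqrt k := by
    intro ε
    have h1 : ∑ q ∈ Q, sg (ε q) • U (zz P (eb q)) = U (zz P (sgv Q ε)) := by
      rw [sgv_eq_sum]
      simp only [map_sum, map_smul]
    rw [h1]
    exact (hU _).trans (mul_le_mul_of_nonneg_left (norm_zz P _ fun q => abs_sgv_le _ _ q) hK₁.le)
  have hB : ∑ q ∈ Q, ‖U (zz P (eb q))‖ ≤ Γ * K₁ * k := by
    have h1 : av (fun ε : I → Bool => ‖∑ q ∈ Q, sg (ε q) • U (zz P (eb q))‖ ^ 2) ≤ K₁ ^ 2 * k := by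
      refine av_le fun ε => ?_
      calc ‖∑ q ∈ Q, sg (ε q) • U (zz P (eb q))‖ ^ 2 ≤ (K₁ * Real.sqrt k) ^ 2 :=
            pow_le_pow_left₀ (norm_nonneg _) (hA ε) 2
        _ = K₁ ^ 2 * k := by rw [mul_pow, Real.sq_sqrt (by positivity)]
    have h2 : (∑ q ∈ Q, ‖U (zz P (eb q))‖) ^ 2 ≤ (Γ * K₁ * k) ^ 2 := by
      calc (∑ q ∈ Q, ‖U (zz P (eb q))‖) ^ 2 ≤ Q.card * ∑ q ∈ Q, ‖U (zz P (eb q))‖ ^ 2 :=
            sq_sum_le_card_mul_sum_sq
        _ ≤ k * (Γ ^ 2 * (K₁ ^ 2 * k)) := by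
            apply mul_le_mul hQk _ (Finset.sum_nonneg fun q _ => by positivity) (by positivity)
            exact hT.trans (mul_le_mul_of_nonneg_left h1 (by positivity))
        _ = (Γ * K₁ * k) ^ 2 := by ring
    exact le_of_sq_le_sq h2 (by positivity)
  -- first test
  have hC : |∑ q ∈ Q, ⟪P.e₀, fs P (v q) q⟫| ≤ K₂ * (Γ * K₁ * k) := by
    refine (Finset.abs_sum_le_sum_abs _ _).trans ?_
    calc ∑ q ∈ Q, |⟪P.e₀, fs P (v q) q⟫| ≤ ∑ q ∈ Q, K₂ * ‖U (zz P (eb q))‖ := by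
          refine Finset.sum_le_sum fun q _ => ?_
          have h1 := tf_le P (v q) (E q)
          rw [tf, hOsE, inner_zero_right, sub_zero, hEin, hEn, mul_one] at h1
          exact h1.trans (hW _)
      _ = K₂ * ∑ q ∈ Q, ‖U (zz P (eb q))‖ := by rw [Finset.mul_sum]
      _ ≤ _ := mul_le_mul_of_nonneg_left hB hK₂.le
  -- second test
  have hD : |∑ q ∈ Q, (⟪P.e₀, fs P (v q) q⟫ - L * sn P (v q) q)| ≤ K₁ * K₂ * k := by
    have h0 : ∀ ε : I → Bool, tf P (W (∑ q ∈ Q, sg (ε q) • U (zz P (eb q)))) (Eε ε) =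
        ∑ q ∈ Q, ∑ q' ∈ Q, sg (ε q) * sg (ε q') *
          (⟪P.e₀, fs P (v q) q'⟫ - L * sn P (v q) q') := by
      intro ε
      have h1 : W (∑ q ∈ Q, sg (ε q) • U (zz P (eb q))) = ∑ q ∈ Q, sg (ε q) • v q := by
        simp only [map_sum, map_smul, hv]
      have h2 : ∀ z, tf P z (Eε ε) = ∑ q' ∈ Q, sg (ε q') * (⟪P.e₀, fs P z q'⟫ - L * sn P z q') := by
        intro z
        rw [tf, hOsEε, real_inner_smul_right, inner_sgv]
        rw [hEεs, inner_sum]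
        simp only [real_inner_smul_right, hEin, mul_sub, Finset.sum_sub_distrib]
        congr 1
        rw [Finset.mul_sum]
        exact Finset.sum_congr rfl fun q _ => by ring
      rw [h1]
      have h3 : tf P (∑ q ∈ Q, sg (ε q) • v q) (Eε ε) = ∑ q ∈ Q, sg (ε q) * tf P (v q) (Eε ε) := by
        rw [← tfl_apply, map_sum]
        exact Finset.sum_congr rfl fun q _ => by rw [map_smul, smul_eq_mul, tfl_apply]
      rw [h3]
      refine Finset.sum_congr rfl fun q _ => ?_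
      rw [h2, Finset.mul_sum]
      exact Finset.sum_congr rfl fun q' _ => by ring
    have h1 := A1 I Q fun q q' => ⟪P.e₀, fs P (v q) q'⟫ - L * sn P (v q) q'
    rw [← h1]
    refine (abs_av_le _).trans (av_le fun ε => ?_)
    rw [← h0]
    refine (tf_le P _ _).trans ?_
    rw [hEεn]
    have h2 : Real.sqrt Q.card ≤ Real.sqrt k := Real.sqrt_le_sqrt hQk
    have h3 : ‖W (∑ q ∈ Q, sg (ε q) • U (zz P (eb q)))‖ ≤ K₂ * (K₁ * Real.sqrt k) :=
      (hW _).trans (mul_le_mul_of_nonneg_left (hA ε) hK₂.le)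
    calc ‖W (∑ q ∈ Q, sg (ε q) • U (zz P (eb q)))‖ * Real.sqrt Q.card
        ≤ (K₂ * (K₁ * Real.sqrt k)) * Real.sqrt k := by gcongr
      _ = K₁ * K₂ * (Real.sqrt k * Real.sqrt k) := by ring
      _ = K₁ * K₂ * k := by rw [Real.mul_self_sqrt (by positivity)]
  have hfin : L * |∑ q ∈ Q, sn P (v q) q| = |∑ q ∈ Q, L * sn P (v q) q| := by
    rw [← Finset.mul_sum, abs_mul, abs_of_nonneg hL0]
  show L * |∑ q ∈ Q, sn P (v q) q| ≤ _
  rw [hfin]
  have h2 : ∑ q ∈ Q, L * sn P (v q) q = ∑ q ∈ Q, ⟪P.e₀, fs P (v q) q⟫ -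
      ∑ q ∈ Q, (⟪P.e₀, fs P (v q) q⟫ - L * sn P (v q) q) := by
    rw [Finset.sum_sub_distrib]; ring
  rw [h2]
  refine (abs_sub _ _).trans ?_
  calc _ ≤ K₂ * (Γ * K₁ * k) + K₁ * K₂ * k := add_le_add hC hD
    _ = K₁ * K₂ * (1 + Γ) * k := by ring

end Pool.Agent.V5helper81.CS
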