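import Pool.Agent.V5helper68.CS.Jobs

/-!
# Basic facts on averages and on testing
-/

set_option autoImplicit false
set_option linter.unusedSectionVars false

open scoped RealInnerProductSpace
open Finset

namespace Pool.Agent.V5helper81.CS

open Pool.Agent.V5helper68.CS

section avg

variable {Ω : Type} [Fintype Ω]

theorem av_mono {F G : Ω → ℝ} (h : ∀ ω, F ω ≤ G ω) : av F ≤ av G := by
  unfold av
  exact div_le_div_of_nonneg_right (Finset.sum_le_sum fun ω _ => h ω) (by positivity)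

theorem av_nonneg {F : Ω → ℝ} (h : ∀ ω, 0 ≤ F ω) : 0 ≤ av F := by
  unfold av
  exact div_nonneg (Finset.sum_nonneg fun ω _ => h ω) (by positivity)

theorem av_const [Nonempty Ω] (c : ℝ) : av (fun _ : Ω => c) = c := by
  unfold av
  have : (Fintype.card Ω : ℝ) ≠ 0 := by positivity
  simp

theorem av_le [Nonempty Ω] {F : Ω → ℝ} {c : ℝ} (h : ∀ ω, F ω ≤ c) : av F ≤ c :=
  (av_mono h).trans (av_const c).le

theorem av_sum {ι : Type} (s : Finset ι) (F : ι → Ω → ℝ) :
    av (fun ω => ∑ i ∈ s, F i ω) = ∑ i ∈ s, av (F i) := by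
  unfold av
  rw [Finset.sum_comm, Finset.sum_div]

theorem av_mul (c : ℝ) (F : Ω → ℝ) : av (fun ω => c * F ω) = c * av F := by
  unfold av
  rw [← Finset.mul_sum, mul_div_assoc]

theorem av_add (F G : Ω → ℝ) : av (fun ω => F ω + G ω) = av F + av G := by
  unfold av
  rw [Finset.sum_add_distrib, add_div]

theorem av_sub (F G : Ω → ℝ) : av (fun ω => F ω - G ω) = av F - av G := by
  unfold av
  rw [Finset.sum_sub_distrib, sub_div]

theorem abs_av_le (F : Ω → ℝ) : |av F| ≤ av (fun ω => |F ω|) := by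
  unfold av
  rw [abs_div, abs_of_nonneg (by positivity : (0:ℝ) ≤ (Fintype.card Ω : ℝ))]
  exact div_le_div_of_nonneg_right (Finset.abs_sum_le_sum_abs _ _) (by positivity)

end avg

theorem sg_sq (b : Bool) : sg b * sg b = 1 := by cases b <;> simp [sg]

theorem abs_sg (b : Bool) : |sg b| = 1 := by cases b <;> simp [sg]

section test

variable {I V : Type} [Fintype I] [DecidableEq I] [NormedAddCommGroup V] [InnerProductSpace ℝ V]

/-- the test form as a linear functional -/
noncomputable def tfl (P : Prof I V) (w : EE I V) : XS P →ₗ[ℝ] ℝ where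
  toFun z := tf P z w
  map_add' z z' := tf_add P z z' w
  map_smul' a z := tf_smul P a z w

@[simp] theorem tfl_apply (P : Prof I V) (w : EE I V) (z : XS P) : tfl P w z = tf P z w := rfl

theorem eq_sum_eb (x : HH I) : x = ∑ q, x q • eb q := by
  ext p
  simp only [WithLp.ofLp_sum, Finset.sum_apply, WithLp.ofLp_smul, Pi.smul_apply, smul_eq_mul, eb]
  rw [Finset.sum_eq_single p]
  · simp
  · intro b _ hb
    simp [Ne.symm hb]
  · intro h'; exact absurd (Finset.mem_univ _) h'

/-- a bounded functional is summable against the top lifts of the unit vectors -/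
theorem sum_abs_le (P : Prof I V) (f : XS P →ₗ[ℝ] ℝ) (C : ℝ) (hC : 0 ≤ C)
    (hf : ∀ z, |f z| ≤ C * ‖z‖) :
    ∑ q, |f (zz P (eb q))| ≤ C * Real.sqrt (Fintype.card I) := by
  set x : HH I := WithLp.toLp 2 fun q => ((SignType.sign (f (zz P (eb q))) : SignType) : ℝ) with hx
  have hx1 : ∀ q, |x q| ≤ 1 := by
    intro q
    show |((SignType.sign (f (zz P (eb q))) : SignType) : ℝ)| ≤ 1
    rcases lt_trichotomy (f (zz P (eb q))) 0 with h | h | h
    · rw [sign_neg h]; simp
    · rw [h]; simp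
    · rw [sign_pos h]; simp
  have h1 : f (zz P x) = ∑ q, |f (zz P (eb q))| := by
    rw [eq_sum_eb x, map_sum, map_sum]
    refine Finset.sum_congr rfl fun q _ => ?_
    rw [map_smul, map_smul, smul_eq_mul]
    exact sign_mul_self _
  rw [← h1]
  calc f (zz P x) ≤ |f (zz P x)| := le_abs_self _
    _ ≤ C * ‖zz P x‖ := hf _
    _ ≤ C * Real.sqrt (Fintype.card I) := mul_le_mul_of_nonneg_left (norm_zz P x hx1) hC

/-- testing `T z` with `w` -/
theorem sum_abs_tf_le (P : Prof I V) (T : XS P →ₗ[ℝ] XS P) {K : ℝ} (hK : 0 ≤ K) (hT : Bd T K)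
    (w : EE I V) :
    ∑ q, |tf P (T (zz P (eb q))) w| ≤ K * ‖w‖ * Real.sqrt (Fintype.card I) := by
  refine sum_abs_le P ((tfl P w).comp T) (K * ‖w‖) (by positivity) fun z => ?_
  show |tf P (T z) w| ≤ _
  calc |tf P (T z) w| ≤ ‖T z‖ * ‖w‖ := tf_le P _ _
    _ ≤ (K * ‖z‖) * ‖w‖ := mul_le_mul_of_nonneg_right (hT z) (norm_nonneg _)
    _ = K * ‖w‖ * ‖z‖ := by ring

theorem norm_sgv (Q : Finset I) (ε : I → Bool) : ‖sgv Q ε‖ = Real.sqrt Q.card := by
  rw [EuclideanSpace.norm_eq]
  congr 1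
  have : ∀ q, ‖(sgv Q ε) q‖ ^ 2 = if q ∈ Q then 1 else 0 := by
    intro q
    simp only [sgv, Real.norm_eq_abs, sq_abs]
    split_ifs with h
    · rw [pow_two, sg_sq]
    · simp
  rw [Finset.sum_congr rfl fun q _ => this q]
  simp

theorem inner_sgv (Q : Finset I) (ε : I → Bool) (x : HH I) :
    ⟪x, sgv Q ε⟫ = ∑ q ∈ Q, sg (ε q) * x q := by
  rw [PiLp.inner_apply]
  simp only [sgv, RCLike.inner_apply, conj_trivial]
  rw [← Finset.sum_filter_add_sum_filter_not univ (fun q => q ∈ Q)]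
  rw [Finset.sum_congr (s₁ := univ.filter fun q => q ∈ Q) (s₂ := Q) (by ext; simp)
    (g := fun q => sg (ε q) * x q)]
  · have : ∑ q with q ∉ Q, (if q ∈ Q then sg (ε q) else 0) * x.ofLp q = 0 := by
      refine Finset.sum_eq_zero fun q hq => ?_
      rw [if_neg (Finset.mem_filter.mp hq).2]; simp
    rw [this, add_zero]
  · intro q hq
    rw [if_pos hq]

theorem sgv_eq_sum (Q : Finset I) (ε : I → Bool) : sgv Q ε = ∑ q ∈ Q, sg (ε q) • eb q := by
  ext p
  simp only [sgv, WithLp.ofLp_sum, Finset.sum_apply, WithLp.ofLp_smul, Pi.smul_apply, smul_eq_mul, eb]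
  split_ifs with h
  · rw [Finset.sum_eq_single p]
    · simp
    · intro b _ hb
      simp [Ne.symm hb]
    · intro h'; exact absurd h h'
  · symm
    refine Finset.sum_eq_zero fun q hq => ?_
    have : p ≠ q := fun h' => h (h' ▸ hq)
    simp [this]

theorem abs_sgv_le (Q : Finset I) (ε : I → Bool) (q : I) : |(sgv Q ε) q| ≤ 1 := by
  simp only [sgv]
  split_ifs with h
  · rw [abs_sg]
  · simp

end test

end Pool.Agent.V5helper81.CS
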